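import Pool.Agent.SHA.StmtsB

/-!
B_LOB: the lower bound `L - 4 - 10 / θ²` for `s ≥ 34`.
-/

set_option autoImplicit false

namespace Pool.Agent.SHA.H76

open Pool.Agent.Helper18_Helly Pool.Agent.SHA

universe u

theorem cubic (θ y : ℝ) (hθ : 0 < θ) (hy : 0 ≤ y) : 4 * y ^ 2 - θ * y ^ 3 ≤ 10 / θ ^ 2 := by
  rw [le_div_iff₀ (by positivity)]
  have hw : 0 ≤ θ * y := mul_nonneg hθ.le hy
  have h1 : 0 ≤ (θ * y - 8 / 3) ^ 2 * (θ * y + 4 / 3) := by positivity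
  nlinarith [h1]

open Classical in
theorem lob (hLO2 : LO2Stmt.{u}) (hTRV : TRVStmt.{u}) (hNM1 : NM1Stmt)
    (hNM2 : NM2Stmt) (hBAS : BASStmt) : LOBStmt.{u} := by
  intro U X s S₁ S₂ Q hs34 h1 h2 hS1 hS2 hQ hO
  have hs1 : 1 ≤ s := by omega
  obtain ⟨b1, b2, b3, -⟩ := hBAS s (S₁.card : ℕ∞) (S₂.card : ℕ∞) hs1
    (by exact_mod_cast h1.le) (by exact_mod_cast h2.le)
  have b4 := b3 S₁.card rfl
  have hs34r : (34 : ℝ) ≤ s := by exact_mod_cast hs34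
  have hprod : s ^ 2 < S₁.card * S₂.card := by nlinarith
  have hθ0 : 0 < theta s (S₁.card : ℕ∞) (S₂.card : ℕ∞) := by
    rw [theta_coe hs1 h1.le h2.le]
    have e1 : (0 : ℝ) < (S₁.card : ℝ) - s := sub_pos.2 (by exact_mod_cast h1)
    have e2 : (0 : ℝ) < (S₂.card : ℝ) - s := sub_pos.2 (by exact_mod_cast h2)
    have e3 : (0 : ℝ) < (S₁.card : ℝ) * S₂.card - (s : ℝ) ^ 2 :=
      sub_pos.2 (by exact_mod_cast hprod)
    exact div_pos (mul_pos e1 e2) e3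
  have hlead : lead s (S₁.card : ℕ∞) (S₂.card : ℕ∞) =
      s * (1 + theta s (S₁.card : ℕ∞) (S₂.card : ℕ∞)) := rfl
  generalize hθ : theta s (S₁.card : ℕ∞) (S₂.card : ℕ∞) = θ at *
  generalize hL : lead s (S₁.card : ℕ∞) (S₂.card : ℕ∞) = L at *
  have hpos : 0 < 10 / θ ^ 2 := by positivity
  have hself : (∀ O ∈ Q, (S₁.filter (fun f => f ∈ O)).card ≤ s) →
      ∃ T : Finset U, (T : Set U) ⊆ X ∧ (∀ O ∈ Q, (T.filter (fun f => f ∈ O)).card ≤ s) ∧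
      L - 4 - 10 / θ ^ 2 ≤ (T.card : ℝ) := by
    intro h
    exact ⟨S₁, hS1, h, by linarith⟩
  rcases hTRV U X s Q hs1 hQ with ⟨T, hT1, hT2, hT3⟩ | hall
  swap
  · exact hself (hall S₁ hS1)
  by_cases hbig : L - 4 - 10 / θ ^ 2 ≤ (T.card : ℝ)
  · exact ⟨T, hT1, hT3, hbig⟩
  push Not at hbig
  rw [hT2] at hbig
  have hsub : ((s - 1 : ℕ) : ℝ) = (s : ℝ) - 1 := by
    rw [Nat.cast_sub hs1, Nat.cast_one]
  rw [Nat.cast_add, hsub] at hbig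
  obtain ⟨k, hk⟩ : ∃ k, k = Q.card := ⟨_, rfl⟩
  rw [← hk] at hbig
  have hsθ : (s : ℝ) * θ ≤ s := by
    have := mul_le_mul_of_nonneg_left b2 (by linarith : (0 : ℝ) ≤ s)
    linarith
  have hks : (k : ℝ) ≤ s := by
    rw [hlead] at hbig
    linarith
  rcases Nat.eq_zero_or_pos k with hk0 | hkpos
  · apply hself
    intro O hO'
    have hc : Q = ∅ := Finset.card_eq_zero.1 (hk.symm.trans hk0)
    rw [hc] at hO'
    exact absurd hO' (Finset.notMem_empty O)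
  · have hk0 : (0 : ℝ) ≤ k := Nat.cast_nonneg k
    have hy3 : ((k : ℝ) ^ ((1 : ℝ) / 3)) ^ 3 = k := by
      rw [← Real.rpow_natCast, ← Real.rpow_mul hk0]
      norm_num
    have hy1 : 1 ≤ (k : ℝ) ^ ((1 : ℝ) / 3) := by
      apply Real.one_le_rpow
      · exact_mod_cast hkpos
      · norm_num
    obtain ⟨y, hy⟩ : ∃ y, y = (k : ℝ) ^ ((1 : ℝ) / 3) := ⟨_, rfl⟩
    rw [← hy] at hy3 hy1
    have hy0 : 0 ≤ y := by linarith
    have h6 := hNM2.1 s y hs34 hy0 (by rw [hy3]; exact hks)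
    obtain ⟨T', hT1', hT2', hT3'⟩ := hLO2 U X s S₁ S₂ Q y hs1 h1.le h2.le hprod hS1 hS2 hQ hO hy1
      (by rw [hy3, hk]) h6
    refine ⟨T', hT1', hT2', ?_⟩
    rw [hθ, hL, ← hk, ← hy3] at hT3'
    have h8 := hNM1 y hy0
    have h9 := cubic θ y hθ0 hy0
    have h10 : (1 + θ) * (1 + 2 * y ^ 2) ≤ 2 * (1 + 2 * y ^ 2) :=
      mul_le_mul_of_nonneg_right (by linarith) (by positivity)
    linarith

end Pool.Agent.SHA.H76
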